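import Pool.Agent.H59.DD.Tower
import Pool.Agent.H54.CX.Main
import Pool.Agent.H93.TR.Main

/-!
# Developments: interface

`CL`: the closing property of an action on a complex. `Dev`: a map of the vertices of a complex to the states which is
invariant under a group and separates the orbits of the edges with a given origin.
-/

set_option autoImplicit false

namespace Pool.Agent.H59.DD

open Pool.Agent.H54.CX St

/-- The closing property: if `n` fixes `x` and maps the first vertex of a path of length at most five in the link of `x`
to the last vertex then `n` fixes a vertex of the path. -/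
def CL {V : Type} (X : Cpx V) (N : Type) [Group N] [MulAction N V] : Prop :=
  ∀ (x : V) (n : N), n • x = x → ∀ (k : ℕ) (y : ℕ → V), k ≤ 5 →
    (∀ i, i < k → X.Tri x (y i) (y (i + 1))) → y k = n • y 0 → ∃ i, i ≤ k ∧ n • y i = y i

/-- all edges have length one -/
def Unit1 {V : Type} (X : Cpx V) : Prop := ∀ a b, X.Edge a b → X.len a b = 1

/-- a map of the vertices of the complex `Y` to the states of the universal cover, invariant under `Γ` -/
structure Dev {V A : Type} {K : Arr V A} {o : V} {W : Type} (Y : Cpx W) (Γ : Type) [Group Γ]
    [MulAction Γ W] (st : W → St K o) : Prop where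
  nb : ∀ x y, Y.Edge x y → ∃ a, Nb (st x) a (st y)
  tri : ∀ x y z, Y.Tri x y z → ∃ a b c, Nb (st x) a (st y) ∧ Nb (st y) b (st z) ∧
    Nb (st x) c (st z) ∧ K.T a b c
  inv : ∀ (g : Γ) x, st (g • x) = st x
  loc : ∀ x y y', Y.Edge x y → Y.Edge x y' → st y = st y' → ∃ g : Γ, g • x = x ∧ g • y = y'
  loc3 : ∀ x y z z', Y.Tri x y z → Y.Tri x y z' → st z = st z' →
    ∃ g : Γ, g • x = x ∧ g • y = y ∧ g • z = z'

/-- an element which fixes an edge and is not trivial generates a subgroup of finite index of both stabilisers; here:
all elements which fix one end fix the other end -/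
def Full {W : Type} (Y : Cpx W) (Γ : Type) [Group Γ] [MulAction Γ W] : Prop :=
  ∀ x y, Y.Edge x y → ∀ g : Γ, g • x = x → g • y = y → g ≠ 1 → ∀ g' : Γ, g' • x = x → g' • y = y

end Pool.Agent.H59.DD
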