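import Pool.Agent.H59.DD.Tower

/-!
# Straight paths

A straight path at height `n` has length at most `n`: the common neighbours below of consecutive vertices form a straight
path at height `n - 1`.
-/

set_option autoImplicit false

namespace Pool.Agent.H59.DD

namespace St

open Arr

variable {V A : Type} {K : Arr V A} {o : V} {s t r : St K o} {a b c : A}

theorem arr_ne (h : Nb s a t) (h' : Nb s b r) (hne : t.ht ≠ r.ht) : a ≠ b := by
  rintro rfl
  exact hne (by rw [h.det h'])

/-- the descending arrow linked to a level arrow is unique -/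
theorem down_uniq {d d' : A} (h : Nb s d t) (h' : Nb s d' r) (h1 : t.ht + 1 = s.ht)
    (h2 : r.ht + 1 = s.ht) (hd : K.Lk d a) (hd' : K.Lk d' a) : d = d' := by
  rcases down_down h h' h1 h2 with h3 | h3
  · exact h3
  · exact (n3 h3 hd' hd.symm).elim

/-- a straight path at height `n` has length at most `n` -/
theorem straight (n : ℕ) : ∀ (k : ℕ) (x : ℕ → St K o) (a : ℕ → A),
    (∀ i, i ≤ k → (x i).ht = n) → (∀ i, i < k → Nb (x i) (a i) (x (i + 1))) →
    (∀ i, i + 1 < k → ∃ d d' t t', Nb (x (i + 1)) d t ∧ Nb (x (i + 1)) d' t' ∧ t.ht + 1 = n ∧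
      t'.ht + 1 = n ∧ d ≠ d' ∧ K.Lk d (K.bar (a i)) ∧ K.Lk d' (a (i + 1))) → k ≤ n := by
  induction n with
  | zero =>
    intro k x a hx ha hs
    by_contra hk
    push Not at hk
    have h0 := hx 0 (by omega)
    have h1 := hx 1 (by omega)
    obtain ⟨d, t, -, ht, -⟩ := level_down (ha 0 hk) (by rw [h0, h1])
    omega
  | succ n ih =>
    intro k x a hx ha hs
    rcases Nat.lt_or_ge k 2 with hk | hk
    · omega
    have hdd : ∀ i, ∃ (d c : A) (w : St K o), i < k → Nb (x i) d w ∧ w.ht = n ∧ K.T d c (a i) := by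
      intro i
      by_cases hi : i < k
      · have h0 := hx i (by omega)
        have h1 := hx (i + 1) (by omega)
        obtain ⟨d, w, h2, h3, c, h4⟩ := level_down (ha i hi) (by rw [h0, h1])
        exact ⟨d, c, w, fun _ => ⟨h2, by omega, h4⟩⟩
      · exact ⟨a 0, a 0, x 0, fun h => absurd h hi⟩
    choose d c w hw using hdd
    have hc : ∀ i, i < k → Nb (w i) (c i) (x (i + 1)) := by
      intro i hi
      obtain ⟨h1, h2, h3⟩ := hw i hi
      exact Nb.tri h3 h1 (ha i hi)
    have hee : ∀ i, ∃ e, i + 1 < k → K.T (K.bar (c i)) e (d (i + 1)) := by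
      intro i
      by_cases hi : i + 1 < k
      · obtain ⟨d1, d2, t1, t2, h1, h2, h3, h4, h5, h6, h7⟩ := hs i hi
        have hx1 := hx (i + 1) (by omega)
        obtain ⟨g1, g2, g3⟩ := hw i (by omega)
        obtain ⟨g1', g2', g3'⟩ := hw (i + 1) hi
        have e1 : d1 = K.bar (c i) := by
          refine down_uniq h1 (hc i (by omega)).bar (by omega) (by omega) h6 ?_
          exact ⟨_, K.rev _ _ _ g3⟩
        have e2 : d2 = d (i + 1) := by
          refine down_uniq h2 g1' (by omega) (by omega) h7 ⟨_, g3'⟩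
        rcases down_down (hc i (by omega)).bar g1' (by omega) (by omega) with h8 | h8
        · exact absurd (e1.trans (h8.trans e2.symm)) h5
        · obtain ⟨e, he⟩ := h8
          exact ⟨e, fun _ => he⟩
      · exact ⟨a 0, fun h => absurd h hi⟩
    choose e he using hee
    have hNe : ∀ i, i + 1 < k → Nb (w i) (e i) (w (i + 1)) := by
      intro i hi
      exact Nb.tri (he i hi) (hc i (by omega)).bar (hw (i + 1) hi).1
    have key := ih (k - 1) w e ?_ ?_ ?_
    · omega
    · intro i hi
      exact (hw i (by omega)).2.1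
    · intro i hi
      exact hNe i (by omega)
    · intro i hi
      have hi2 : i + 2 < k := by omega
      have e1 := hNe i (by omega)
      have e2 := hNe (i + 1) (by omega)
      obtain ⟨g1, g2, g3⟩ := hw (i + 1) (by omega)
      have g4 := (hw i (by omega)).2.1
      have g5 := (hw (i + 1 + 1) (by omega)).2.1
      have g6 := hx (i + 1) (by omega)
      have g7 := hx (i + 1 + 1) (by omega)
      have g8 := hc (i + 1) (by omega)
      have t1 := he i (by omega)
      have t2 := he (i + 1) (by omega)
      obtain ⟨p, t, hp, ht, hpl⟩ := level_down e1.bar (by rw [g2, g4])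
      obtain ⟨q, t', hq, ht', hql⟩ := level_down e2 (by rw [g2, g5])
      refine ⟨p, q, t, t', hp, hq, by omega, by omega, ?_, hpl, hql⟩
      rintro rfl
      have l2 : K.Lk (K.bar (e i)) (K.bar (d (i + 1))) := ⟨_, K.rev _ _ _ t1⟩
      have l3 : K.Lk (K.bar (d (i + 1))) (c (i + 1)) := ⟨_, K.rot _ _ _ g3⟩
      have l4 : K.Lk (c (i + 1)) (e (i + 1)) := by
        have := K.rot _ _ _ t2
        rw [K.bar_bar] at this
        exact ⟨_, this⟩
      refine n5 hpl l2 l3 l4 hql.symm ?_ ?_ ?_ ?_ ?_
      · exact arr_ne hp g1.bar (by omega)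
      · exact arr_ne e1.bar g8 (by omega)
      · exact arr_ne g1.bar e2 (by omega)
      · exact arr_ne g8 hp (by omega)
      · intro h
        rw [h] at l4
        exact n3 l2 l3 l4

end St

end Pool.Agent.H59.DD
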