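import Pool.Agent.H34.RM.Fin
import Pool.Agent.H59.DD.Str

/-!
# Removal of free pairs

A group which acts on a developed simply connected complex with finitely many orbits of triangles, with a homomorphism
to a group of the class which is injective on the stabilisers, is in the class.
-/

set_option autoImplicit false

namespace Pool.Agent.H59.DD

open Pool.Agent.H54.CX Pool.Agent.H98.FJ St

variable {C : (G : Type) → [Group G] → Prop}

theorem rem_main (hC : Inherits C) (hE : Extension C) {V A : Type} {K : Arr V A} {o : V}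
    {W : Type} {Γ Q : Type} [Group Γ] [MulAction Γ W] [Group Q] (Y : Cpx W) (hY : Y.Inv Γ)
    (hsc : Y.SC) (hl : Y.Link) (h1 : Unit1 Y) {st : W → St K o} (hd : Dev Y Γ st)
    (hfull : Full Y Γ) (hQ : C Q) (h : Γ →* Q)
    (hh : ∀ (g : Γ) (v : W), g • v = v → h g = 1 → g = 1)
    (hfin : ∃ F : Set (W × W × W), F.Finite ∧ ∀ x y z, Y.Tri x y z →
      ∃ g : Γ, (g • x, g • y, g • z) ∈ F) : C Γ := by
  refine Pool.Agent.H34.RM.rem_main' hC hE (K := K) (o := o) ?_ Y hY hsc hl h1 hd hfull hQ h hh hfin
  intro n x a hx hnb hst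
  have h2 := St.straight n (n + 1) x a (fun i _ => hx i) (fun i _ => hnb i) (fun i _ => by
    obtain ⟨d, d', s, s', e1, e2, e3, e4, e5, e6, e7⟩ := hst i
    exact ⟨d, d', s, s', e1, e3, e2, e4, e5, e6, e7⟩)
  omega

end Pool.Agent.H59.DD
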