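import Pool.Agent.H59.DD.Dev

/-!
# Lifting a simply connected complex to the covering
-/

set_option autoImplicit false

namespace Pool.Agent.H59.DD

open Pool.Agent.H54.CX Pool.Agent.H54.CX.Cls St

section

variable {V V' A : Type} (X : Cpx V) (K : Arr V' A) (o : V') (vt : V → V')
  (ar : ∀ x y, X.Edge x y → A)

/-- vertices of `X` with a state over the same vertex -/
abbrev Pr : Type := {p : V × St K o // p.2.lab = vt p.1}

/-- the conditions on the map of the edges to the arrows -/
structure Mor : Prop where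
  src : ∀ x y h, K.src (ar x y h) = vt x
  bar : ∀ x y h, K.bar (ar x y h) = ar y x (X.symm _ _ h)
  tri : ∀ x y z h h1 h2, X.Tri x y z → K.T (ar x y h) (ar y z h1) (ar x z h2)

variable {X K o vt ar}

theorem Mor.exists (hm : Mor X K vt ar) {x y : V} (h : X.Edge x y) {s : St K o}
    (hs : s.lab = vt x) : ∃ t, Nb s (ar x y h) t := Nb.exists (by rw [hm.src, hs])

theorem Mor.lab (hm : Mor X K vt ar) {x y : V} {h : X.Edge x y} {s t : St K o}
    (ht : Nb s (ar x y h) t) : t.lab = vt y := by
  rw [← ht.tgt, hm.bar, hm.src]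

theorem Mor.back (hm : Mor X K vt ar) {x y : V} {h : X.Edge x y} {s t : St K o}
    (ht : Nb s (ar x y h) t) : Nb t (ar y x (X.symm _ _ h)) s := by
  rw [← hm.bar]
  exact ht.bar

/-- the state of the neighbour -/
noncomputable def nxs (hm : Mor X K vt ar) (p : Pr K o vt) (y : V) (h : X.Edge p.1.1 y) : Pr K o vt :=
  ⟨(y, (hm.exists h p.2).choose), hm.lab (hm.exists h p.2).choose_spec⟩

theorem nxs_nb (hm : Mor X K vt ar) (p : Pr K o vt) (y : V) (h : X.Edge p.1.1 y) :
    Nb p.1.2 (ar p.1.1 y h) (nxs hm p y h).1.2 := (hm.exists h p.2).choose_spec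

theorem nxs_fst (hm : Mor X K vt ar) (p : Pr K o vt) (y : V) (h : X.Edge p.1.1 y) :
    (nxs hm p y h).1.1 = y := rfl

open Classical in
/-- the action of a letter -/
noncomputable def stl (hm : Mor X K vt ar) (y : V) : Function.End (Option (Pr K o vt))
  | none => none
  | some p => if p.1.1 = y then some p else if h : X.Edge p.1.1 y then some (nxs hm p y h) else none

theorem stl_same (hm : Mor X K vt ar) {y : V} {p : Pr K o vt} (h : p.1.1 = y) :
    stl hm y (some p) = some p := if_pos h

theorem stl_edge (hm : Mor X K vt ar) {y : V} {p : Pr K o vt} (h : X.Edge p.1.1 y) :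
    stl hm y (some p) = some (nxs hm p y h) := by
  have h1 : p.1.1 ≠ y := X.ne _ _ h
  exact (if_neg h1).trans (dif_pos h)

theorem stl_none (hm : Mor X K vt ar) {y : V} {p : Pr K o vt} (h : p.1.1 ≠ y)
    (h' : ¬ X.Edge p.1.1 y) : stl hm y (some p) = none :=
  (if_neg h).trans (dif_neg h')

/-- the first component after a letter -/
theorem stl_some (hm : Mor X K vt ar) (y : V) (s : Option (Pr K o vt)) :
    stl hm y s = none ∨ ∃ p : Pr K o vt, p.1.1 = y ∧ stl hm y s = some p := by
  rcases s with _ | p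
  · exact Or.inl rfl
  · by_cases h : p.1.1 = y
    · exact Or.inr ⟨p, h, stl_same hm h⟩
    · by_cases h' : X.Edge p.1.1 y
      · exact Or.inr ⟨_, rfl, stl_edge hm h'⟩
      · exact Or.inl (stl_none hm h h')

theorem stl_stay (hm : Mor X K vt ar) (y : V) (s : Option (Pr K o vt)) :
    stl hm y (stl hm y s) = stl hm y s := by
  rcases stl_some hm y s with h | ⟨p, hp, h⟩
  · rw [h]; rfl
  · rw [h, stl_same hm hp]

theorem pr_ext {p q : Pr K o vt} (h : p.1.1 = q.1.1) (h' : p.1.2 = q.1.2) : p = q :=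
  Subtype.ext (Prod.ext h h')

theorem stl_back (hm : Mor X K vt ar) (a b : V) (hab : X.Edge a b) (s : Option (Pr K o vt)) :
    stl hm a (stl hm b (stl hm a s)) = stl hm a s := by
  rcases stl_some hm a s with h | ⟨p, hp, h⟩
  · rw [h]; rfl
  · rw [h]
    subst hp
    have h2 : X.Edge (nxs hm p b hab).1.1 p.1.1 := X.symm _ _ hab
    rw [stl_edge hm hab, stl_edge hm h2]
    congr 1
    refine pr_ext rfl ?_
    have h3 := nxs_nb hm (nxs hm p b hab) p.1.1 h2
    have h4 := hm.back (nxs_nb hm p b hab)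
    exact h3.det h4

theorem stl_tri (hm : Mor X K vt ar) (a b c : V) (habc : X.Tri a b c)
    (s : Option (Pr K o vt)) :
    stl hm c (stl hm b (stl hm a s)) = stl hm c (stl hm a s) := by
  rcases stl_some hm a s with h | ⟨p, hp, h⟩
  · rw [h]; rfl
  · rw [h]
    subst hp
    have hab := X.edge _ _ _ habc
    have hbc := X.edge _ _ _ (X.rot _ _ _ habc)
    have hac := X.symm _ _ (X.edge _ _ _ (X.rot _ _ _ (X.rot _ _ _ habc)))
    have h2 : X.Edge (nxs hm p b hab).1.1 c := hbc
    rw [stl_edge hm hab, stl_edge hm h2, stl_edge hm hac]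
    congr 1
    refine pr_ext rfl ?_
    have h3 := nxs_nb hm (nxs hm p b hab) c h2
    have h4 := nxs_nb hm p b hab
    have h5 := nxs_nb hm p c hac
    exact h3.det (Nb.tri (hm.tri _ _ _ _ hbc _ habc) h4 h5)

/-- the action of the monoid of the classes -/
noncomputable def stlHom (hm : Mor X K vt ar) :
    Cls X →* (Function.End (Option (Pr K o vt)))ᵐᵒᵖ :=
  Cls.lift (fun y => MulOpposite.op (stl hm y))
    (fun a => congrArg MulOpposite.op (funext (stl_stay hm a)))
    (fun a b h => congrArg MulOpposite.op (funext (stl_back hm a b h)))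
    (fun a b c h => congrArg MulOpposite.op (funext (stl_tri hm a b c h)))

theorem stlHom_mul_pt (hm : Mor X K vt ar) (q : Cls X) (y : V) (s : Option (Pr K o vt)) :
    (stlHom hm (q * pt X y)).unop s = stl hm y ((stlHom hm q).unop s) := by
  rw [map_mul]
  show (stlHom hm (pt X y)).unop ((stlHom hm q).unop s) = _
  rw [show stlHom hm (pt X y) = MulOpposite.op (stl (o := o) hm y) from lift_pt _ _ _ _ _]
  rfl

theorem stlHom_path (hm : Mor X K vt ar) (p₀ : Pr K o vt) {y : V} {q : Cls X}
    (h : PC X p₀.1.1 y q) :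
    ∃ p : Pr K o vt, p.1.1 = y ∧ (stlHom hm q).unop (some p₀) = some p := by
  induction h with
  | base =>
    have h1 := stlHom_mul_pt hm 1 p₀.1.1 (some p₀)
    rw [one_mul, map_one] at h1
    refine ⟨p₀, rfl, ?_⟩
    rw [h1]
    exact stl_same hm rfl
  | @step b c q h h' ih =>
    obtain ⟨p, hp, h1⟩ := ih
    rw [stlHom_mul_pt, h1]
    subst hp
    rcases h' with h' | h'
    · exact ⟨p, h', stl_same hm h'⟩
    · exact ⟨nxs hm p c h', rfl, stl_edge hm h'⟩

/-- **Lifting.** -/
theorem exists_lift_st (hm : Mor X K vt ar) (hsc : X.SC) (x₀ : V) (s₀ : St K o)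
    (h₀ : s₀.lab = vt x₀) :
    ∃ st : V → St K o, st x₀ = s₀ ∧ (∀ x, (st x).lab = vt x) ∧
      ∀ x y h, Nb (st x) (ar x y h) (st y) := by
  obtain ⟨-, hconn, hcontr⟩ := sc_iff.1 hsc
  have hpc : ∀ x, ∃ q, PC X x₀ x q := hconn x₀
  choose q hq using hpc
  have huniq : ∀ x r, PC X x₀ x r → r = q x := by
    intro x r hr
    obtain ⟨r', hr', h1, h2⟩ := (hq x).exists_rev
    have h3 := hcontr _ _ (hr.trans hr')
    have h4 : r * r' * q x = pt X x₀ * q x := by rw [h3]
    rw [mul_assoc, h2, hr.mul_pt, (hq x).pt_mul] at h4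
    exact h4
  let p₀ : Pr K o vt := ⟨(x₀, s₀), h₀⟩
  have hp : ∀ x, ∃ p : Pr K o vt, p.1.1 = x ∧ (stlHom hm (q x)).unop (some p₀) = some p :=
    fun x => stlHom_path hm p₀ (hq x)
  choose p hp1 hp2 using hp
  refine ⟨fun x => (p x).1.2, ?_, ?_, ?_⟩
  · have h1 : q x₀ = pt X x₀ := (huniq _ _ PC.base).symm
    have h2 := hp2 x₀
    have h3 := stlHom_mul_pt hm 1 x₀ (some p₀)
    rw [one_mul, map_one] at h3
    rw [h1, h3] at h2
    have h4 : stl hm x₀ (some p₀) = some p₀ := stl_same hm rfl
    have h5 : some p₀ = some (p x₀) := h4.symm.trans h2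
    show (p x₀).1.2 = s₀
    rw [← Option.some.inj h5]
  · intro x
    rw [(p x).2, hp1]
  · intro x y h
    have h1 : q y = q x * pt X y := (huniq _ _ ((hq x).step (Or.inr h))).symm
    have h2 := hp2 y
    rw [h1, stlHom_mul_pt, hp2 x] at h2
    have h3 : X.Edge (p x).1.1 y := by rw [hp1]; exact h
    rw [stl_edge hm h3] at h2
    have h4 := nxs_nb hm (p x) y h3
    rw [Option.some.inj h2] at h4
    have h5 : ar (p x).1.1 y h3 = ar x y h := by
      congr 1
      exact hp1 x
    rwa [h5] at h4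

/-- two lifts which agree at a vertex are equal -/
theorem lift_uniq (hsc : X.SC) {st st' : V → St K o}
    (h : ∀ x y h, Nb (st x) (ar x y h) (st y)) (h' : ∀ x y h, Nb (st' x) (ar x y h) (st' y))
    {v : V} (hv : st v = st' v) (x : V) : st x = st' x := by
  obtain ⟨-, hconn, -⟩ := sc_iff.1 hsc
  obtain ⟨q, hq⟩ := hconn v x
  induction hq with
  | base => exact hv
  | @step b c q h1 h2 ih =>
    rcases h2 with h2 | h2
    · rw [← h2]; exact ih
    · have h3 := h b c h2
      rw [ih] at h3
      exact h3.det (h' b c h2)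

/-- invariance of the lift -/
theorem lift_inv {N : Type} [Group N] [MulAction N V] (hX : X.Inv N) (hsc : X.SC)
    {st : V → St K o} (h : ∀ x y h, Nb (st x) (ar x y h) (st y))
    (har : ∀ (n : N) x y h h', ar (n • x) (n • y) h' = ar x y h)
    (hgen : Subgroup.closure {n : N | ∃ v : V, n • v = v} = ⊤) (n : N) :
    ∀ x, st (n • x) = st x := by
  have hn : n ∈ Subgroup.closure {n : N | ∃ v : V, n • v = v} := by rw [hgen]; trivial
  induction hn using Subgroup.closure_induction with
  | mem n hn =>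
    obtain ⟨v, hv⟩ := hn
    refine fun x => lift_uniq (ar := ar) hsc (st := fun x => st (n • x)) (st' := st) ?_ h
      (v := v) ?_ x
    · intro x y h1
      have := h (n • x) (n • y) (hX.edge n x y h1)
      rwa [har n x y h1] at this
    · show st (n • v) = st v
      rw [hv]
  | one => intro x; rw [one_smul]
  | mul a b ha hb iha ihb =>
    intro x
    rw [mul_smul, iha, ihb]
  | inv a ha iha =>
    intro x
    have := iha (a⁻¹ • x)
    rw [smul_inv_smul] at this
    exact this.symm

end

end Pool.Agent.H59.DD
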