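import Pool.Agent.H59.DD.Quo
import Pool.Agent.H59.DD.Lift

/-!
# The development of a simply connected complex

If `N` acts on the simply connected complex `X` with unit edges and links of girth at least six, is generated by
elements with fixed vertices and has the closing property, then the quotient is simplicial and the vertices of `X` have
states: the quotient is its own universal cover.
-/

set_option autoImplicit false

namespace Pool.Agent.H59.DD

open Pool.Agent.H54.CX St

theorem exists_dev {V : Type} {N : Type} [Group N] [MulAction N V] (X : Cpx V) (hX : X.Inv N)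
    (hsc : X.SC) (hl : X.Link) (h1 : Unit1 X) (hcl : CL X N)
    (hgen : Subgroup.closure {n : N | ∃ v : V, n • v = v} = ⊤) :
    ∃ (V' A : Type) (K : Arr V' A) (o : V') (st : V → St K o), Dev X N st ∧
      ∀ x y, st x = st y → ∃ n : N, n • x = y := by
  obtain ⟨x₀⟩ := hsc.nonempty
  let K : Arr (MulAction.orbitRel.Quotient N V) (DQ X N) := quo hX hl h1 hcl
  let ar : ∀ x y, X.Edge x y → DQ X N := fun x y h => dk N h
  have hm : Mor X K (vk N) ar :=
    { src := fun x y h => rfl
      bar := fun x y h => rfl
      tri := fun x y z h h1 h2 ht => ⟨x, y, z, ht, rfl, rfl, rfl⟩ }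
  let s₀ : St K (vk N x₀) := ⟨0, ()⟩
  obtain ⟨st, -, h3, h4⟩ := exists_lift_st (o := vk N x₀) hm hsc x₀ s₀ rfl
  have har : ∀ (n : N) x y h h', ar (n • x) (n • y) h' = ar x y h := fun n x y h h' =>
    (dk_eq.2 ⟨n, rfl, rfl⟩).symm
  have hloc : ∀ x y y', X.Edge x y → X.Edge x y' → st y = st y' →
      ∃ g : N, g • x = x ∧ g • y = y' := by
    intro x y y' hy hy' e
    have h5 := h4 x y hy
    have h6 := h4 x y' hy'
    rw [← e] at h6
    exact dk_eq.1 (h5.arr h6)
  refine ⟨_, _, K, vk N x₀, st, ⟨?_, ?_, ?_, hloc, ?_⟩, ?_⟩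
  · intro x y h
    exact ⟨_, h4 x y h⟩
  · intro x y z h
    exact ⟨_, _, _, h4 x y (tri_edge1 h), h4 y z (tri_edge2 h), h4 x z (tri_edge3 h),
      hm.tri _ _ _ _ _ _ h⟩
  · intro g x
    exact lift_inv hX hsc h4 har hgen g x
  · intro x y z z' hz hz' e
    obtain ⟨n, hn, hn'⟩ := hloc x z z' (tri_edge3 hz) (tri_edge3 hz') e
    obtain ⟨i, hi, hi'⟩ := hcl x n hn 2
      (fun i => if i = 0 then z else if i = 1 then y else z') (by omega) (by
        intro i hi
        interval_cases i
        · exact tri_flip hz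
        · exact hz') hn'.symm
    interval_cases i
    · have h5 : n • z = z := hi'
      exact ⟨1, one_smul _ _, one_smul _ _, by rw [one_smul, ← hn', h5]⟩
    · exact ⟨n, hn, hi', hn'⟩
    · have h5 : n • z' = z' := hi'
      rw [← hn'] at h5
      have h6 := smul_left_cancel _ h5
      exact ⟨1, one_smul _ _, one_smul _ _, by rw [one_smul, ← hn', h6]⟩
  · intro x y e
    have h5 := h3 x
    rw [e, h3 y] at h5
    exact vk_eq.1 h5.symm

end Pool.Agent.H59.DD
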