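import Mathlib

/-!
# Arrow systems

An arrow system is the local structure of a triangle complex: arrows `a` with a source `src a`, the opposite arrow
`bar a` and the relation `T a b c`: there is a triangle in which `a` followed by `b` is `c`. Two arrows `a`, `c` with
the same source are linked if they are sides of a triangle. The link graphs have no reduced closed paths of length less
than six.
-/

set_option autoImplicit false

namespace Pool.Agent.H59.DD

/-- a triangle complex in terms of arrows, with links of girth at least six -/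
structure Arr (V A : Type) where
  /-- the source -/
  src : A → V
  /-- the opposite arrow -/
  bar : A → A
  /-- `a` followed by `b` is `c` -/
  T : A → A → A → Prop
  bar_bar : ∀ a, bar (bar a) = a
  comp : ∀ a b c, T a b c → src b = src (bar a) ∧ src c = src a ∧ src (bar c) = src (bar b)
  rev : ∀ a b c, T a b c → T (bar b) (bar a) (bar c)
  rot : ∀ a b c, T a b c → T (bar a) c b
  uniq : ∀ a b b' c, T a b c → T a b' c → b = b'
  no1 : ∀ a b, ¬ T a b a
  no3 : ∀ a b c, (∃ x, T a x b) → (∃ x, T b x c) → (∃ x, T c x a) → False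
  no4 : ∀ a b c d, (∃ x, T a x b) → (∃ x, T b x c) → (∃ x, T c x d) → (∃ x, T d x a) →
    a ≠ c → b ≠ d → False
  no5 : ∀ a b c d e, (∃ x, T a x b) → (∃ x, T b x c) → (∃ x, T c x d) → (∃ x, T d x e) →
    (∃ x, T e x a) → a ≠ c → b ≠ d → c ≠ e → d ≠ a → e ≠ b → False

namespace Arr

variable {V A : Type} (K : Arr V A)

/-- linked: the two arrows are sides of a triangle -/
def Lk (a c : A) : Prop := ∃ x, K.T a x c

variable {K}

/-- the same triangle, seen from the source of `c` -/
theorem sym {a b c : A} (h : K.T a b c) : K.T c (K.bar b) a := by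
  have h1 := K.rot _ _ _ (K.rev _ _ _ (K.rot _ _ _ h))
  rwa [K.bar_bar, K.bar_bar] at h1

theorem Lk.symm {a c : A} (h : K.Lk a c) : K.Lk c a := by
  obtain ⟨x, hx⟩ := h
  exact ⟨_, sym hx⟩

theorem Lk.irrefl (a : A) : ¬ K.Lk a a := by
  rintro ⟨x, hx⟩
  exact K.no1 _ _ hx

theorem Lk.ne {a b : A} (h : K.Lk a b) : a ≠ b := by
  rintro rfl
  exact Lk.irrefl _ h

theorem rev_iff {a b c : A} : K.T (K.bar b) (K.bar a) (K.bar c) ↔ K.T a b c := by
  constructor
  · intro h
    have := K.rev _ _ _ h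
    rwa [K.bar_bar, K.bar_bar, K.bar_bar] at this
  · exact K.rev _ _ _

theorem rot' {a b c : A} (h : K.T (K.bar a) c b) : K.T a b c := by
  have := K.rot _ _ _ h
  rwa [K.bar_bar] at this

theorem uniq3 {a b c c' : A} (h : K.T a b c) (h' : K.T a b c') : c = c' :=
  K.uniq _ _ _ _ (K.rot _ _ _ h) (K.rot _ _ _ h')

theorem uniq1 {a a' b c : A} (h : K.T a b c) (h' : K.T a' b c) : a = a' := by
  have := K.uniq _ _ _ _ (K.rev _ _ _ h) (K.rev _ _ _ h')
  rw [← K.bar_bar a, this, K.bar_bar]

theorem bar_inj {a b : A} (h : K.bar a = K.bar b) : a = b := by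
  rw [← K.bar_bar a, h, K.bar_bar]

theorem n3 {a b c : A} (h1 : K.Lk a b) (h2 : K.Lk b c) (h3 : K.Lk c a) : False :=
  K.no3 a b c h1 h2 h3

theorem n4 {a b c d : A} (h1 : K.Lk a b) (h2 : K.Lk b c) (h3 : K.Lk c d) (h4 : K.Lk d a)
    (h5 : a ≠ c) (h6 : b ≠ d) : False := K.no4 a b c d h1 h2 h3 h4 h5 h6

theorem n5 {a b c d e : A} (h1 : K.Lk a b) (h2 : K.Lk b c) (h3 : K.Lk c d) (h4 : K.Lk d e)
    (h5 : K.Lk e a) (h6 : a ≠ c) (h7 : b ≠ d) (h8 : c ≠ e) (h9 : d ≠ a) (h10 : e ≠ b) : False :=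
  K.no5 a b c d e h1 h2 h3 h4 h5 h6 h7 h8 h9 h10

end Arr

end Pool.Agent.H59.DD
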