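import Pool.Agent.H59.DD.ExDev
import Pool.Agent.H59.DD.Rem

/-!
# The group generated by deep rotations is in the class
-/

set_option autoImplicit false

namespace Pool.Agent.H59.DD

open Pool.Agent.H54.CX Pool.Agent.H54.CX.Cls Pool.Agent.H54.CX.CV Pool.Agent.H98.FJ St

variable {C : (G : Type) → [Group G] → Prop}

section

variable {V : Type} {N : Type} [Group N] [MulAction N V] {X : Cpx V} {hX : X.Inv N} {x₀ : V}

/-- an element which fixes `p` and maps the end point of a neighbour `q` to the end point of a neighbour `q'` -/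
theorem cov_edge_eq {g : Gam X N hX x₀} {p q q' : CV X x₀} (hp : g • p = p)
    (h : (cov X x₀).Edge p q) (h' : (cov X x₀).Edge p q') (e : g.g • en q = en q') :
    g • q = q' := by
  have h1 := (cov_inv hX x₀).edge g _ _ h
  rw [hp] at h1
  refine CV.ext ?_
  rw [h1.2, h'.2, en_smul, e]

theorem gam_eq_one {g : Gam X N hX x₀} {p : CV X x₀} (hp : g • p = p) (h : g.g = 1) : g = 1 :=
  stab_inj hp (one_smul _ p) h

end

theorem n_mem (hC : Inherits C) (hE : Extension C) {V : Type} {N Q : Type} [Group N] [Group Q]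
    [MulAction N V] (X : Cpx V) (hX : X.Inv N) (hsc : X.SC) (hl : X.Link) (h1 : Unit1 X)
    (hcl : CL X N) (hfull : Full X N)
    (hgen : Subgroup.closure {n : N | ∃ v : V, n • v = v} = ⊤) (hQ : C Q) (h : N →* Q)
    (hh : ∀ (g : N) (v : V), g • v = v → h g = 1 → g = 1) : C N := by
  obtain ⟨V', A, K, o, st, hd, -⟩ := exists_dev X hX hsc hl h1 hcl hgen
  obtain ⟨x₀⟩ := hsc.nonempty
  refine hC.colim _ _ _ _ _ (isColimit hX hsc x₀) (fun F => ?_)
  have hcc := cov_cocompact (x₀ := x₀) (sub_inv hX (F : Set V)) (insert x₀ (F : Set V))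
    (F.finite_toSet.insert x₀) (by
      intro p
      obtain ⟨q, b, h⟩ := p
      rw [en_eq (p := ⟨q, b, h⟩) h]
      induction h with
      | base => exact ⟨1, by rw [one_smul]; exact Or.inl rfl⟩
      | @step b c q h h' ih =>
        rcases h' with h' | h'
        · rw [← h']; exact ih
        · obtain ⟨g, -, h2⟩ := h'.2
          exact ⟨g, Or.inr h2⟩) (by
      intro a b h
      exact h.2.imp fun _ e => ⟨Or.inr e.1, Or.inr e.2⟩) (by
      intro a b c h
      exact h.2.imp fun _ e => ⟨Or.inr e.1, Or.inr e.2.1, Or.inr e.2.2⟩)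
  obtain ⟨F', hF', -, -, hF3⟩ := hcc
  refine rem_main hC hE (cov (sub X N (F : Set V)) x₀) (cov_inv _ x₀) cov_sc
    (cov_link (sub_link hl _) x₀) (fun p q hpq => h1 _ _ hpq.1.1) (st := fun p => st (en p)) ?_ ?_
    hQ (h.comp (Gam.proj _ _ _ _)) ?_ ?_
  · refine ⟨?_, ?_, ?_, ?_, ?_⟩
    · intro p q hpq
      exact hd.nb _ _ hpq.1.1
    · intro p q r h
      exact hd.tri _ _ _ h.1.1
    · intro g p
      show st (en (g • p)) = st (en p)
      rw [en_smul, hd.inv]
    · intro p q q' hq hq' e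
      obtain ⟨n, hn, hn'⟩ := hd.loc _ _ _ hq.1.1 hq'.1.1 e
      obtain ⟨g, hg, hg'⟩ := exists_lift (sub_inv hX (F : Set V)) p p n hn
      exact ⟨g, hg', cov_edge_eq hg' hq hq' (by rw [hg, hn'])⟩
    · intro p q r r' hr hr' e
      obtain ⟨n, hn, hn', hn''⟩ := hd.loc3 _ _ _ _ hr.1.1 hr'.1.1 e
      obtain ⟨g, hg, hg'⟩ := exists_lift (sub_inv hX (F : Set V)) p p n hn
      exact ⟨g, hg', cov_edge_eq hg' (tri_edge1 hr) (tri_edge1 hr) (by rw [hg, hn']),
        cov_edge_eq hg' (tri_edge3 hr) (tri_edge3 hr') (by rw [hg, hn''])⟩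
  · intro p q hpq g hp hq hne g' hp'
    refine cov_edge_eq hp' hpq hpq ?_
    have e1 : g.g • en p = en p := by rw [← en_smul, hp]
    have e2 : g.g • en q = en q := by rw [← en_smul, hq]
    have e3 : g'.g • en p = en p := by rw [← en_smul, hp']
    exact hfull _ _ hpq.1.1 g.g e1 e2 (fun e => hne (gam_eq_one hp e)) g'.g e3
  · intro g p hp e
    have e1 : g.g • en p = en p := by rw [← en_smul, hp]
    exact gam_eq_one hp (hh g.g _ e1 e)
  · refine ⟨F' ×ˢ (F' ×ˢ F'), hF'.prod (hF'.prod hF'), ?_⟩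
    intro p q r hpqr
    obtain ⟨g, g1, g2, g3⟩ := hF3 p q r hpqr
    exact ⟨g, g1, g2, g3⟩

end Pool.Agent.H59.DD
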