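import Pool.Agent.H59.DD.Dev

/-!
# The arrow system of a quotient
-/

set_option autoImplicit false

namespace Pool.Agent.H59.DD

open Pool.Agent.H54.CX

section

variable {V : Type} {X : Cpx V}

theorem tri_edge1 {a b c : V} (h : X.Tri a b c) : X.Edge a b := X.edge _ _ _ h
theorem tri_edge2 {a b c : V} (h : X.Tri a b c) : X.Edge b c := X.edge _ _ _ (X.rot _ _ _ h)
theorem tri_edge3 {a b c : V} (h : X.Tri a b c) : X.Edge a c :=
  X.symm _ _ (X.edge _ _ _ (X.rot _ _ _ (X.rot _ _ _ h)))

theorem tri_flip {a b c : V} (h : X.Tri a b c) : X.Tri a c b :=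
  X.swap _ _ _ (X.rot _ _ _ (X.rot _ _ _ h))

theorem ang_unit (h1 : Unit1 X) {a b c : V} (h : X.Tri a b c) : X.ang a b c = Real.pi / 3 := by
  unfold Cpx.ang
  rw [h1 _ _ (tri_edge1 h), h1 _ _ (tri_edge2 h), h1 _ _ (tri_edge3 h)]
  have h2 : ((1 : ℝ) ^ 2 + 1 ^ 2 - 1 ^ 2) / (2 * 1 * 1) = Real.cos (Real.pi / 3) := by
    rw [Real.cos_pi_div_three]; norm_num
  rw [h2]
  exact Real.arccos_cos (by positivity) (by linarith [Real.pi_pos])

/-- closed injective paths in the links have length at least six -/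
theorem six (hl : X.Link) (h1 : Unit1 X) (a : V) (n : ℕ) (b : ℕ → V) (hn : 3 ≤ n)
    (hb : b n = b 0) (hinj : ∀ i j, i < j → j < n → b i ≠ b j)
    (ht : ∀ i, i < n → X.Tri a (b i) (b (i + 1))) : 6 ≤ n := by
  have h2 := hl a n b hn hb hinj ht
  have h3 : ∑ i ∈ Finset.range n, X.ang a (b i) (b (i + 1)) = n * (Real.pi / 3) := by
    rw [Finset.sum_congr rfl (fun i hi => ang_unit h1 (ht i (Finset.mem_range.1 hi)))]
    simp
  rw [h3] at h2
  have h4 : (6 : ℝ) ≤ n := by
    have := Real.pi_pos
    nlinarith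
  exact_mod_cast h4

/-- the edges with an orientation -/
def Dart (X : Cpx V) : Type := {p : V × V // X.Edge p.1 p.2}

variable (X) (N : Type) [Group N] [MulAction N V]

/-- the orbits of the oriented edges -/
def dset : Setoid (Dart X) where
  r p q := ∃ n : N, n • p.1.1 = q.1.1 ∧ n • p.1.2 = q.1.2
  iseqv :=
    { refl := fun p => ⟨1, one_smul _ _, one_smul _ _⟩
      symm := by
        rintro p q ⟨n, h1, h2⟩
        exact ⟨n⁻¹, by rw [← h1, inv_smul_smul], by rw [← h2, inv_smul_smul]⟩
      trans := by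
        rintro p q r ⟨n, h1, h2⟩ ⟨m, h3, h4⟩
        exact ⟨m * n, by rw [mul_smul, h1, h3], by rw [mul_smul, h2, h4]⟩ }

/-- the arrows of the quotient -/
def DQ : Type := Quotient (dset X N)

variable {X}

/-- the arrow of an edge -/
def dk {x y : V} (h : X.Edge x y) : DQ X N := Quotient.mk (dset X N) ⟨(x, y), h⟩

variable {N}

theorem dk_eq {x y x' y' : V} {h : X.Edge x y} {h' : X.Edge x' y'} :
    dk N h = dk N h' ↔ ∃ n : N, n • x = x' ∧ n • y = y' := by
  constructor
  · intro e
    exact Quotient.exact e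
  · intro e
    exact Quotient.sound e

theorem dk_surj (a : DQ X N) : ∃ (x y : V) (h : X.Edge x y), a = dk N h := by
  induction a using Quotient.inductionOn with
  | h p => exact ⟨p.1.1, p.1.2, p.2, rfl⟩

variable (N)

/-- the orbit of a vertex -/
def vk (x : V) : MulAction.orbitRel.Quotient N V := Quotient.mk _ x

variable {N}

theorem vk_eq {x y : V} : vk N x = vk N y ↔ ∃ n : N, n • x = y := by
  constructor
  · intro e
    obtain ⟨n, hn⟩ := Quotient.exact e
    exact ⟨n⁻¹, by rw [← hn]; exact inv_smul_smul _ _⟩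
  · rintro ⟨n, rfl⟩
    exact Quotient.sound ⟨n⁻¹, inv_smul_smul _ _⟩

theorem vk_smul (n : N) (x : V) : vk N (n • x) = vk N x := vk_eq.2 ⟨n⁻¹, inv_smul_smul _ _⟩

/-- the source -/
def dsrc : DQ X N → MulAction.orbitRel.Quotient N V :=
  Quotient.lift (fun p : Dart X => vk N p.1.1) (by
    rintro p q ⟨n, h1, h2⟩
    show vk N p.1.1 = vk N q.1.1
    rw [← h1, vk_smul])

theorem dsrc_dk {x y : V} (h : X.Edge x y) : dsrc (dk N h) = vk N x := rfl

/-- the opposite arrow -/
def dbar : DQ X N → DQ X N :=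
  Quotient.map (fun p : Dart X => (⟨(p.1.2, p.1.1), X.symm _ _ p.2⟩ : Dart X)) (by
    rintro p q ⟨n, h1, h2⟩
    exact ⟨n, h2, h1⟩)

theorem dbar_dk {x y : V} (h : X.Edge x y) : dbar (dk N h) = dk N (X.symm _ _ h) := rfl

/-- the triangles of the quotient -/
def dT (a b c : DQ X N) : Prop :=
  ∃ (x y z : V) (h : X.Tri x y z), a = dk N (tri_edge1 h) ∧ b = dk N (tri_edge2 h) ∧
    c = dk N (tri_edge3 h)

theorem dT_mk {x y z : V} (h : X.Tri x y z) :
    dT (dk N (tri_edge1 h)) (dk N (tri_edge2 h)) (dk N (tri_edge3 h)) := ⟨x, y, z, h, rfl, rfl, rfl⟩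

/-- a triangle with a given first edge -/
theorem dT_lift (hX : X.Inv N) {x y : V} {h : X.Edge x y} {b c : DQ X N} (ht : dT (dk N h) b c) :
    ∃ (z : V) (h : X.Tri x y z), b = dk N (tri_edge2 h) ∧ c = dk N (tri_edge3 h) := by
  obtain ⟨x', y', z', h', e1, rfl, rfl⟩ := ht
  obtain ⟨n, h1, h2⟩ := dk_eq.1 e1.symm
  have h3 := hX.tri n _ _ _ h'
  rw [h1, h2] at h3
  exact ⟨n • z', h3, dk_eq.2 ⟨n, h2, rfl⟩, dk_eq.2 ⟨n, h1, rfl⟩⟩

/-- linked arrows with a given first edge -/
theorem lk_lift (hX : X.Inv N) {x y : V} {h : X.Edge x y} {c : DQ X N}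
    (ht : ∃ b, dT (dk N h) b c) : ∃ (z : V) (h : X.Tri x y z), c = dk N (tri_edge3 h) := by
  obtain ⟨b, hb⟩ := ht
  obtain ⟨z, hz, -, h2⟩ := dT_lift hX hb
  exact ⟨z, hz, h2⟩

/-- a path in the link of the quotient lifts to a path in the link -/
theorem walk_lift (hX : X.Inv N) (a : ℕ → DQ X N) {x y₀ : V} {h₀ : X.Edge x y₀}
    (h0 : a 0 = dk N h₀) (k : ℕ) (ha : ∀ i, i < k → ∃ b, dT (a i) b (a (i + 1))) :
    ∃ y : ℕ → V, y 0 = y₀ ∧ (∀ i, i < k → X.Tri x (y i) (y (i + 1))) ∧
      ∀ i, i ≤ k → ∃ h : X.Edge x (y i), a i = dk N h := by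
  induction k with
  | zero =>
    refine ⟨fun _ => y₀, rfl, fun i hi => absurd hi (by omega), ?_⟩
    intro i hi
    have : i = 0 := by omega
    subst this
    exact ⟨h₀, h0⟩
  | succ k ih =>
    obtain ⟨y, h1, h2, h3⟩ := ih (fun i hi => ha i (by omega))
    obtain ⟨he, h4⟩ := h3 k le_rfl
    have h5 := ha k (by omega)
    rw [h4] at h5
    obtain ⟨z, hz, h6⟩ := lk_lift hX h5
    refine ⟨fun i => if i ≤ k then y i else z, ?_, ?_, ?_⟩
    · show (if 0 ≤ k then y 0 else z) = y₀
      rw [if_pos (Nat.zero_le k), h1]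
    · intro i hi
      show X.Tri x (if i ≤ k then y i else z) (if i + 1 ≤ k then y (i + 1) else z)
      rw [if_pos (by omega)]
      by_cases hik : i + 1 ≤ k
      · rw [if_pos hik]
        exact h2 i (by omega)
      · rw [if_neg hik]
        have : i = k := by omega
        subst this
        exact hz
    · intro i hi
      by_cases hik : i ≤ k
      · show ∃ h : X.Edge x (if i ≤ k then y i else z), a i = dk N h
        simp only [if_pos hik]
        exact h3 i hik
      · show ∃ h : X.Edge x (if i ≤ k then y i else z), a i = dk N h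
        simp only [if_neg hik]
        have : i = k + 1 := by omega
        subst this
        exact ⟨tri_edge3 hz, h6⟩

/-- **Closed paths.** A closed path of length at most five in a link of the quotient lifts to a closed path. -/
theorem closed_lift (hX : X.Inv N) (hcl : CL X N) (a : ℕ → DQ X N) (k : ℕ) (hk : k ≤ 5)
    (ha : ∀ i, i < k → ∃ b, dT (a i) b (a (i + 1))) (hc : a k = a 0) :
    ∃ (x : V) (z : ℕ → V), (∀ i, i < k → X.Tri x (z i) (z (i + 1))) ∧ z k = z 0 ∧
      ∀ i, i ≤ k → ∃ h : X.Edge x (z i), a i = dk N h := by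
  obtain ⟨x, y₀, h₀, h0⟩ := dk_surj (a 0)
  obtain ⟨y, h1, h2, h3⟩ := walk_lift hX a h0 k ha
  obtain ⟨e1, h4⟩ := h3 k le_rfl
  obtain ⟨e0, h5⟩ := h3 0 (Nat.zero_le k)
  rw [h4, h5] at hc
  obtain ⟨n, hn, hn'⟩ := dk_eq.1 hc.symm
  obtain ⟨j, hj, hj'⟩ := hcl x n hn k y hk h2 hn'.symm
  have hx : n⁻¹ • x = x := by rw [inv_smul_eq_iff, hn]
  have hj2 : n⁻¹ • y j = y j := by rw [inv_smul_eq_iff, hj']
  refine ⟨x, fun i => if i ≤ j then y i else n⁻¹ • y i, ?_, ?_, ?_⟩
  · intro i hi
    show X.Tri x (if i ≤ j then y i else n⁻¹ • y i) (if i + 1 ≤ j then y (i + 1) else n⁻¹ • y (i + 1))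
    by_cases hi1 : i + 1 ≤ j
    · rw [if_pos (by omega), if_pos hi1]
      exact h2 i hi
    · rw [if_neg hi1]
      have h6 := hX.tri n⁻¹ _ _ _ (h2 i hi)
      rw [hx] at h6
      by_cases hi2 : i ≤ j
      · rw [if_pos hi2]
        have : i = j := by omega
        subst this
        rwa [hj2] at h6
      · rwa [if_neg hi2]
  · show (if k ≤ j then y k else n⁻¹ • y k) = (if 0 ≤ j then y 0 else n⁻¹ • y 0)
    rw [if_pos (Nat.zero_le j)]
    by_cases hkj : k ≤ j
    · rw [if_pos hkj]
      have : k = j := by omega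
      subst this
      rw [← hj2, ← hn', inv_smul_smul]
    · rw [if_neg hkj, ← hn', inv_smul_smul]
  · intro i hi
    obtain ⟨e, he⟩ := h3 i hi
    by_cases hij : i ≤ j
    · show ∃ h : X.Edge x (if i ≤ j then y i else n⁻¹ • y i), a i = dk N h
      simp only [if_pos hij]
      exact ⟨e, he⟩
    · show ∃ h : X.Edge x (if i ≤ j then y i else n⁻¹ • y i), a i = dk N h
      simp only [if_neg hij]
      have e' := hX.edge n⁻¹ _ _ e
      rw [hx] at e'
      exact ⟨e', by rw [he]; exact dk_eq.2 ⟨n⁻¹, hx, rfl⟩⟩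

theorem dk_ne {x y y' : V} {h : X.Edge x y} {h' : X.Edge x y'} (hne : dk N h ≠ dk N h') :
    y ≠ y' := by
  rintro rfl
  exact hne rfl

/-- the arrow system of the quotient -/
def quo (hX : X.Inv N) (hl : X.Link) (h1 : Unit1 X) (hcl : CL X N) :
    Arr (MulAction.orbitRel.Quotient N V) (DQ X N) where
  src := dsrc
  bar := dbar
  T := dT
  bar_bar a := by
    obtain ⟨x, y, h, rfl⟩ := dk_surj a
    rfl
  comp := by
    rintro a b c ⟨x, y, z, h, rfl, rfl, rfl⟩
    exact ⟨rfl, rfl, rfl⟩
  rev := by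
    rintro a b c ⟨x, y, z, h, rfl, rfl, rfl⟩
    exact ⟨z, y, x, tri_flip (X.rot _ _ _ (X.rot _ _ _ h)), rfl, rfl, rfl⟩
  rot := by
    rintro a b c ⟨x, y, z, h, rfl, rfl, rfl⟩
    exact ⟨y, x, z, X.swap _ _ _ h, rfl, rfl, rfl⟩
  uniq := by
    rintro a b b' c ⟨x, y, z, h, rfl, rfl, rfl⟩ ⟨x', y', z', h', e1, rfl, e2⟩
    obtain ⟨n, h3, h4⟩ := dk_eq.1 e1.symm
    obtain ⟨m, h5, h6⟩ := dk_eq.1 e2.symm
    have h7 := hX.tri n _ _ _ h'
    rw [h3, h4] at h7
    have h8 : (m * n⁻¹) • x = x := by rw [mul_smul, ← h3, inv_smul_smul, h5, h3]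
    have h9 : (m * n⁻¹) • (n • z') = z := by rw [mul_smul, inv_smul_smul, h6]
    obtain ⟨i, hi, hi'⟩ := hcl x (m * n⁻¹) h8 2
      (fun i => if i = 0 then n • z' else if i = 1 then y else z) (by omega) (by
        intro i hi
        rcases Nat.lt_or_ge i 1 with hi1 | hi1
        · have : i = 0 := by omega
          subst this
          simpa using tri_flip h7
        · have : i = 1 := by omega
          subst this
          simpa using h) (by simpa using h9.symm)
    have hz : n • z' = z → dk N (tri_edge2 h) = dk N (tri_edge2 h') := by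
      intro e
      exact (dk_eq.2 ⟨n, h4, e⟩).symm
    rcases Nat.lt_or_ge i 1 with hi1 | hi1
    · have : i = 0 := by omega
      subst this
      have h10 : (m * n⁻¹) • (n • z') = n • z' := by simpa using hi'
      exact hz (by rw [← h10, h9])
    · rcases Nat.lt_or_ge i 2 with hi2 | hi2
      · have : i = 1 := by omega
        subst this
        have h10 : (m * n⁻¹) • y = y := by simpa using hi'
        refine (dk_eq.2 ⟨m, ?_, h6⟩).symm
        have h11 : m • y' = (m * n⁻¹) • (n • y') := by rw [mul_smul, inv_smul_smul]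
        rw [h11, h4, h10]
      · have : i = 2 := by omega
        subst this
        have h10 : (m * n⁻¹) • z = z := by simpa using hi'
        refine hz ?_
        rw [← h9] at h10
        have h12 := (smul_left_cancel _ h10).symm
        rw [h12, h9]
  no1 := by
    rintro a b hab
    obtain ⟨x, z, h2, h3, -⟩ := closed_lift hX hcl (fun _ => a) 1 (by omega)
      (fun i _ => ⟨b, hab⟩) rfl
    have h4 := h2 0 (by omega)
    rw [h3] at h4
    exact X.ne _ _ (tri_edge2 h4) rfl
  no3 := by
    rintro a b c hab hbc hca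
    obtain ⟨x, z, h2, h3, h4⟩ := closed_lift hX hcl
      (fun i => if i = 0 then a else if i = 1 then b else if i = 2 then c else a) 3 (by omega) (by
        intro i hi
        interval_cases i
        · exact hab
        · exact hbc
        · exact hca) rfl
    have h5 := six hl h1 x 3 z le_rfl h3 ?_ h2
    · omega
    · have e0 := X.ne _ _ (tri_edge2 (h2 0 (by omega)))
      have e1 := X.ne _ _ (tri_edge2 (h2 1 (by omega)))
      have e2 := X.ne _ _ (tri_edge2 (h2 2 (by omega)))
      rw [h3] at e2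
      intro i j hij hj
      interval_cases j
      · omega
      · interval_cases i
        exact e0
      · interval_cases i
        · exact e2.symm
        · exact e1
  no4 := by
    rintro a b c d hab hbc hcd hda hac hbd
    obtain ⟨x, z, h2, h3, h4⟩ := closed_lift hX hcl
      (fun i => if i = 0 then a else if i = 1 then b else if i = 2 then c else if i = 3 then d
        else a) 4 (by omega) (by
        intro i hi
        interval_cases i
        · exact hab
        · exact hbc
        · exact hcd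
        · exact hda) rfl
    have h5 := six hl h1 x 4 z (by omega) h3 ?_ h2
    · omega
    · have e0 := X.ne _ _ (tri_edge2 (h2 0 (by omega)))
      have e1 := X.ne _ _ (tri_edge2 (h2 1 (by omega)))
      have e2 := X.ne _ _ (tri_edge2 (h2 2 (by omega)))
      have e3 := X.ne _ _ (tri_edge2 (h2 3 (by omega)))
      rw [h3] at e3
      obtain ⟨g0, f0⟩ := h4 0 (by omega)
      obtain ⟨g1, f1⟩ := h4 1 (by omega)
      obtain ⟨g2, f2⟩ := h4 2 (by omega)
      obtain ⟨g3, f3⟩ := h4 3 (by omega)
      have i02 : z 0 ≠ z 2 := dk_ne (h := g0) (h' := g2) (by rw [← f0, ← f2]; exact hac)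
      have i13 : z 1 ≠ z 3 := dk_ne (h := g1) (h' := g3) (by rw [← f1, ← f3]; exact hbd)
      intro i j hij hj
      interval_cases j
      · omega
      · interval_cases i
        exact e0
      · interval_cases i
        · exact i02
        · exact e1
      · interval_cases i
        · exact e3.symm
        · exact i13
        · exact e2
  no5 := by
    rintro a b c d e hab hbc hcd hde hea hac hbd hce hda heb
    obtain ⟨x, z, h2, h3, h4⟩ := closed_lift hX hcl
      (fun i => if i = 0 then a else if i = 1 then b else if i = 2 then c else if i = 3 then d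
        else if i = 4 then e else a) 5 (by omega) (by
        intro i hi
        interval_cases i
        · exact hab
        · exact hbc
        · exact hcd
        · exact hde
        · exact hea) rfl
    have h5 := six hl h1 x 5 z (by omega) h3 ?_ h2
    · omega
    · have e0 := X.ne _ _ (tri_edge2 (h2 0 (by omega)))
      have e1 := X.ne _ _ (tri_edge2 (h2 1 (by omega)))
      have e2 := X.ne _ _ (tri_edge2 (h2 2 (by omega)))
      have e3 := X.ne _ _ (tri_edge2 (h2 3 (by omega)))
      have e4 := X.ne _ _ (tri_edge2 (h2 4 (by omega)))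
      rw [h3] at e4
      obtain ⟨g0, f0⟩ := h4 0 (by omega)
      obtain ⟨g1, f1⟩ := h4 1 (by omega)
      obtain ⟨g2, f2⟩ := h4 2 (by omega)
      obtain ⟨g3, f3⟩ := h4 3 (by omega)
      obtain ⟨g4, f4⟩ := h4 4 (by omega)
      have i02 : z 0 ≠ z 2 := dk_ne (h := g0) (h' := g2) (by rw [← f0, ← f2]; exact hac)
      have i13 : z 1 ≠ z 3 := dk_ne (h := g1) (h' := g3) (by rw [← f1, ← f3]; exact hbd)
      have i24 : z 2 ≠ z 4 := dk_ne (h := g2) (h' := g4) (by rw [← f2, ← f4]; exact hce)
      have i03 : z 0 ≠ z 3 := dk_ne (h := g0) (h' := g3) (by rw [← f0, ← f3]; exact hda.symm)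
      have i14 : z 1 ≠ z 4 := dk_ne (h := g1) (h' := g4) (by rw [← f1, ← f4]; exact heb.symm)
      intro i j hij hj
      interval_cases j
      · omega
      · interval_cases i
        exact e0
      · interval_cases i
        · exact i02
        · exact e1
      · interval_cases i
        · exact i03
        · exact i13
        · exact e2
      · interval_cases i
        · exact e4.symm
        · exact i14
        · exact i24
        · exact e3

end

end Pool.Agent.H59.DD
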